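import Pool.Agent.W719.AX.Dbl

set_option autoImplicit false

namespace Pool.Agent.W658.AX

open Finset Topology Metric
open Pool.Agent.W711.HT hiding XX
open Pool.Agent.W719.AR
open Pool.Agent.W719.AX
open scoped Real ComplexConjugate

theorem Rp_neg (N d : ℕ) (ψ : ℂ) : Rp N d (-ψ) = Rp N d ψ := by
  unfold Rp
  simp only [Complex.cos_neg]

theorem Rp_conj (N d : ℕ) (ψ : ℂ) : conj (Rp N d (conj ψ)) = Rp N d ψ := by
  unfold Rp
  rw [map_prod]
  refine Finset.prod_congr rfl fun j _ => ?_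
  rw [map_add, map_mul, map_mul, ← Complex.cos_conj, Complex.conj_conj, Complex.conj_ofReal]
  simp only [map_ofNat]

theorem ker_neg1 (N : ℕ) (ψ ψ' : ℂ) : ker N (-ψ) ψ' = ker N ψ ψ' := by
  unfold Pool.Agent.W711.HT.ker
  simp only [Rp_neg]

theorem ker_neg2 (N : ℕ) (ψ ψ' : ℂ) : ker N ψ (-ψ') = ker N ψ ψ' := by
  unfold Pool.Agent.W711.HT.ker
  simp only [Rp_neg]

theorem ker_conj (N : ℕ) (ψ ψ' : ℂ) : conj (ker N (conj ψ) (conj ψ')) = ker N ψ ψ' := by
  unfold Pool.Agent.W711.HT.ker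
  rw [map_sum]
  refine Finset.sum_congr rfl fun d _ => ?_
  rw [map_div₀, map_mul, Rp_conj, Rp_conj, map_pow, Complex.conj_ofReal]

theorem Ea_neg (a : ℤ) (N : ℕ) (ψ : ℂ) : Ea a N (-ψ) = Ea a N ψ := by
  unfold Ea
  rw [neg_sq]

theorem Ea_conj (a : ℤ) (N : ℕ) (ψ : ℂ) : conj (Ea a N (conj ψ)) = Ea (-a) N ψ := by
  unfold Ea
  rw [← Complex.exp_conj]
  congr 1
  simp only [map_div₀, map_mul, map_pow, Complex.conj_I, Complex.conj_conj, Complex.conj_ofReal,
    map_natCast, map_intCast, map_ofNat]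
  push_cast
  ring

theorem kr_neg (N : ℕ) (ψ : ℂ) : kr N (-ψ) = -kr N ψ := by
  unfold kr
  have h : Complex.cos (N * (-ψ + π) / 2) ^ 2 = Complex.cos (N * (ψ + π) / 2) ^ 2 := by
    have h1 : (N : ℂ) * (-ψ + π) / 2 = (N : ℂ) * π - (N : ℂ) * (ψ + π) / 2 := by ring
    rw [h1, Complex.cos_sub, Complex.sin_nat_mul_pi, zero_mul, add_zero, mul_pow]
    have h2 : Complex.cos ((N : ℂ) * π) ^ 2 = 1 := by
      have := Complex.sin_sq_add_cos_sq ((N : ℂ) * π)
      rw [Complex.sin_nat_mul_pi] at this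
      simpa using this
    rw [h2, one_mul]
  rw [h, Complex.sin_neg]
  ring

theorem kr_conj (N : ℕ) (ψ : ℂ) : conj (kr N (conj ψ)) = kr N ψ := by
  unfold kr
  rw [map_div₀, map_mul, map_mul, map_pow, ← Complex.sin_conj, ← Complex.cos_conj,
    Complex.conj_conj]
  simp only [map_div₀, map_mul, map_add, Complex.conj_conj, Complex.conj_ofReal, map_natCast,
    map_ofNat]

theorem upp_congr (h : ℝ) {f g : ℂ → ℂ} (hfg : ∀ z, f z = g z) : upp h f = upp h g := by
  rw [funext hfg]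

theorem conj_upp (h : ℝ) (f g : ℂ → ℂ) (hg : ∀ z, conj (f (conj z)) = g z)
    (hodd : ∀ z, g (-z) = -g z) : conj (upp h f) = -upp h g := by
  have hf : ∀ z, conj (f z) = g (conj z) := fun z => by rw [← hg, Complex.conj_conj]
  have e1 : ∀ y : ℝ, conj (f (-π + y * Complex.I)) = -g (π + y * Complex.I) := by
    intro y
    rw [hf, ← hodd]
    congr 1
    simp only [map_add, map_neg, map_mul, Complex.conj_ofReal, Complex.conj_I]
    ring
  have e2 : ∀ x : ℝ, conj (f (x + h * Complex.I)) = -g ((-x : ℝ) + h * Complex.I) := by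
    intro x
    rw [hf, ← hodd]
    congr 1
    simp only [map_add, map_mul, Complex.conj_ofReal, Complex.conj_I]
    push_cast
    ring
  have e3 : ∀ y : ℝ, conj (f (π + y * Complex.I)) = -g (-π + y * Complex.I) := by
    intro y
    rw [hf, ← hodd]
    congr 1
    simp only [map_add, map_mul, Complex.conj_ofReal, Complex.conj_I]
    ring
  have i1 : conj (∫ y in (0:ℝ)..h, f (-π + y * Complex.I)) =
      -∫ y in (0:ℝ)..h, g (π + y * Complex.I) := by
    rw [← intervalIntegral.intervalIntegral_conj, ← intervalIntegral.integral_neg]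
    exact intervalIntegral.integral_congr fun y _ => e1 y
  have i3 : conj (∫ y in (0:ℝ)..h, f (π + y * Complex.I)) =
      -∫ y in (0:ℝ)..h, g (-π + y * Complex.I) := by
    rw [← intervalIntegral.intervalIntegral_conj, ← intervalIntegral.integral_neg]
    exact intervalIntegral.integral_congr fun y _ => e3 y
  have i2 : conj (∫ x in (-π)..π, f (x + h * Complex.I)) =
      -∫ x in (-π)..π, g (x + h * Complex.I) := by
    rw [← intervalIntegral.intervalIntegral_conj, ← intervalIntegral.integral_neg]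
    have h1 : ∫ x in (-π)..π, conj (f (x + h * Complex.I)) =
        ∫ x in (-π)..π, (fun t : ℝ => -g (t + h * Complex.I)) (-x) :=
      intervalIntegral.integral_congr fun x _ => e2 x
    rw [h1, intervalIntegral.integral_comp_neg (fun t : ℝ => -g (t + h * Complex.I)), neg_neg]
  unfold upp
  rw [map_sub, map_add, map_mul, map_mul, Complex.conj_I, i1, i2, i3]
  ring

theorem stp_even (a : ℤ) (X : ℕ → ℂ → ℂ) (N : ℕ) (ψ : ℂ) : stp a X N (-ψ) = stp a X N ψ := by
  unfold stp
  simp only [ker_neg2]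

theorem XX_even (t : Tr) (N : ℕ) (ψ : ℂ) : XX t N (-ψ) = XX t N ψ := by
  induction t with
  | vx a => rfl
  | br t c iht _ =>
    show XX t N (-ψ) * stp c.wt (XX c) N (-ψ) = XX t N ψ * stp c.wt (XX c) N ψ
    rw [iht, stp_even]

theorem upp_mul (h : ℝ) (c : ℂ) (f : ℂ → ℂ) : upp h (fun z => c * f z) = c * upp h f := by
  unfold upp
  simp only [intervalIntegral.integral_const_mul]
  ring

theorem wt_ng (t : Tr) : (ng t).wt = -t.wt := by
  induction t with
  | vx a => rfl
  | br t c iht _ => exact iht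

theorem stp_conj (a : ℤ) (X Y : ℕ → ℂ → ℂ) (N : ℕ) (e : ℂ) (hX : ∀ ψ, X N (-ψ) = X N ψ)
    (hY : ∀ ψ, Y N ψ = e * conj (X N (conj ψ))) (ψ' : ℂ) :
    stp (-a) Y N ψ' = -(e * conj (stp a X N (conj ψ'))) := by
  have h1 : conj (stp a X N (conj ψ')) = -upp (1 / N) (fun ψ => Ea (-a) N ψ *
      conj (X N (conj ψ)) * ker N ψ ψ' * kr N ψ) := by
    unfold stp
    refine conj_upp _ _ _ ?_ ?_
    · intro z
      rw [map_mul, map_mul, map_mul, Ea_conj, kr_conj, ker_conj]
    · intro z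
      rw [Ea_neg, ker_neg1, kr_neg, map_neg, hX]
      ring
  rw [h1]
  unfold stp
  rw [mul_neg, neg_neg, ← upp_mul]
  refine upp_congr _ fun z => ?_
  rw [hY]
  ring

theorem ng_XX : S_NG := by
  intro t N
  suffices H : ∀ ψ, XX (ng t) N ψ = (-1) ^ ne t * conj (XX t N (conj ψ)) from fun ψ _ => H ψ
  induction t with
  | vx a =>
    intro ψ
    show (1 : ℂ) = (-1) ^ ne (.vx a) * conj (1 : ℂ)
    simp [ne]
  | br t c iht ihc =>
    intro ψ
    show XX (ng t) N ψ * stp (ng c).wt (XX (ng c)) N ψ =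
      (-1) ^ ne (.br t c) * conj (XX t N (conj ψ) * stp c.wt (XX c) N (conj ψ))
    rw [iht, wt_ng, stp_conj c.wt (XX c) (XX (ng c)) N ((-1) ^ ne c) (XX_even c N) ihc, map_mul]
    have : ne (.br t c) = ne t + ne c + 1 := rfl
    rw [this, pow_succ, pow_add]
    ring

end Pool.Agent.W658.AX
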